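import Pool.Agent.Helper54.GA.G3
import Pool.Agent.Helper54.GA.G9
import Pool.Agent.Helper54.GA.M5
import Pool.Agent.Helper54.GA.S1
import Pool.Agent.Helper34.GA.G2
import Pool.Agent.Helper34.GA.G3a
import Pool.Agent.Helper34.GA.M3
import Pool.Agent.Helper58.GA.G1
import Pool.Agent.Helper58.GA.S2
import Pool.Agent.Helper77.GA.G3b
import Pool.Agent.Helper77.GA.M1
import Pool.Agent.Helper9.GA.M2

/-!
# Orbits of neighbours merge, and this decides the finiteness of the exceptional set in short windows (`d = 2`, `m = 3`)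

Let `R = {r_1}` be admissible for `d = 2`, `m = 3` (`r_1` any odd integer; `r_1 = -1` is the `3x + 1` map), `T n = n / 2` for even `n` and
`T n = (3 n - r_1) / 2` for odd `n`. A neighbour of `n` at a distance at most `s` is an integer `k ≡ n (mod r_1)` with `|k - n| ≤ s`.

* The mechanism: after `k` steps all the orbits from the window of `n` of the size `s` are at the same point, except for a proportion of the `n` of the exact
  order `min 1 ((1 + log s) / √k)`. (For `s = 1` and the `3x + 1` map this contains a conjecture of Gao, 1993: for almost all `n` the orbits of `n` and `n + 1`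
  under `n / 2`, `3 n + 1` are at the same point at some time `≤ log₂ n`; the theorem `Pool.Agent.Helper9.GA.g4`.)
* Hence an invariant set is pure around almost all points: in the windows of the size `exp (o (√(log x)))` completely, in the windows of the size `x ^ (o (1))`
  up to a small share, at all scales at once (maximal inequality). For the maps `3x - 1` and `3x + 1` a positive proportion of the windows of the size `x ^ θ`,
  for any fixed `θ < 1`, is still almost pure, and the value can be prescribed (`Helper8.SI`: the flow in short intervals, a crossing argument).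
* Hence `E` is finite as soon as, for one `B`, almost all points have some window of this size in which a positive share of the orbits goes `≤ B`, or one
  neighbour in the window of the size `exp (o (√(log x)))` whose orbit goes `≤ B`. The densities of the sets of the starting points of bounded orbits
  and the fact that they are `1` only if `E` is finite are in `Helper91.POSB` (mixing of Tao, positive density of the predecessors).
* For the `3x + 1` map: all the integers reach `1` if (and only if) the share of the integers that reach `1` in the windows is concentrated (around any value).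
-/

set_option autoImplicit false

namespace Pool.Agent.Results.MP_fd8838_nt.LocalCriterion

open Pool.Agent.Helper68.Moeller Pool.Agent.Helper8 Pool.Agent.Helper8.ND Pool.Agent.Helper28 Pool.Agent.Helper91
  Pool.Agent.Helper54 Filter Topology

/-- The number of the positive elements `≤ x`. -/
noncomputable def count (A : Set ℤ) (x : ℝ) : ℝ := ({n : ℤ | n ∈ A ∧ 0 < n ∧ (n : ℝ) ≤ x}.ncard : ℝ)

/-- The natural density (in the positive integers). -/
def HasDensity (A : Set ℤ) (δ : ℝ) : Prop := Tendsto (fun x : ℝ => count A x / x) atTop (𝓝 δ)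

/-- `k` is a neighbour of `n`, at a distance at most `s`. -/
def Near (r : ℤ → ℤ) (s : ℝ) (n k : ℤ) : Prop := r 1 ∣ k - n ∧ |((k - n : ℤ) : ℝ)| ≤ s

/-- The proportion of the elements of `G` among the neighbours of `n` at a distance at most `s`. -/
noncomputable def share (r : ℤ → ℤ) (G : Set ℤ) (s : ℝ) (n : ℤ) : ℝ :=
  ({k : ℤ | Near r s n k ∧ k ∈ G}.ncard : ℝ) / ({k : ℤ | Near r s n k}.ncard : ℝ)

/-- The integers whose orbit goes `≤ B`. -/
def Below (r : ℤ → ℤ) (B : ℝ) : Set ℤ := {k : ℤ | ∃ t : ℕ, ((T 2 3 r)^[t] k : ℝ) ≤ B}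

/-- `G` is invariant under `T`, up to finitely many positive integers. -/
def Inv (r : ℤ → ℤ) (G : Set ℤ) : Prop := ∃ z : ℤ, ∀ n : ℤ, z < n → (n ∈ G ↔ T 2 3 r n ∈ G)

/-- The number of the odd points among `n, T n, …, T^(k-1) n`. -/
def odds (r : ℤ → ℤ) (k : ℕ) (n : ℤ) : ℕ := ((Finset.range k).filter (fun i => ¬ (2 : ℤ) ∣ (T 2 3 r)^[i] n)).card

/-- The map `n / 2`, `(3 n + 1) / 2`. -/
def T3 : ℤ → ℤ := T 2 3 (fun _ => -1)

private theorem count_eq54 (A : Set ℤ) (x : ℝ) : count A x = cN A x := rfl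

private theorem odds_eq54 (r : ℤ → ℤ) (k : ℕ) (n : ℤ) : odds r k n = cnt 2 3 r k n := by
  unfold odds
  rw [Finset.card_filter]
  induction k generalizing n with
  | zero => rfl
  | succ k ih =>
    rw [Finset.sum_range_succ', add_comm]
    show _ = (if ((2 : ℕ) : ℤ) ∣ n then 0 else 1) + cnt 2 3 r k (T 2 3 r n)
    rw [← ih]
    congr 1
    rw [Function.iterate_zero, id_eq]
    by_cases h : (2 : ℤ) ∣ n
    · rw [if_neg (not_not.2 h), if_pos (by exact_mod_cast h)]
    · rw [if_pos h, if_neg (by exact_mod_cast h)]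

private theorem compl54 {A : Set ℤ} {δ : ℝ} (h : HasDensity A δ) : HasDensity Aᶜ (1 - δ) := by
  have h1 := (POSB.cN_univ_tendsto (G := A ∪ Aᶜ) fun n _ => by
    rw [Set.union_compl_self]
    exact Set.mem_univ n).sub h
  refine h1.congr fun x => ?_
  rw [POSB.cN_union disjoint_compl_right, count_eq54, count_eq54]
  ring

private theorem near_finite54 {r : ℤ → ℤ} (s : ℝ) (n : ℤ) : {k : ℤ | Near r s n k}.Finite := by
  refine ((GA.finite54 (ρ := r 1) s (fun _ => True)).image (fun h => n + h)).subset ?_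
  rintro k ⟨h1, h2⟩
  exact ⟨k - n, ⟨h1, h2, trivial⟩, by simp⟩

/-- The number of the neighbours. -/
private theorem near_card54 {r : ℤ → ℤ} (hr : r 1 ≠ 0) {s : ℝ} (hs : 0 ≤ s) (n : ℤ) :
    s / |(r 1 : ℝ)| ≤ ({k : ℤ | Near r s n k}.ncard : ℝ) ∧ (1 : ℝ) ≤ ({k : ℤ | Near r s n k}.ncard : ℝ) := by
  have hrp : 0 < |(r 1 : ℝ)| := abs_pos.2 (by exact_mod_cast hr)
  obtain ⟨m, hm⟩ : ∃ m : ℕ, m = ⌊s / |(r 1 : ℝ)|⌋₊ := ⟨_, rfl⟩
  have hm1 : (m : ℝ) ≤ s / |(r 1 : ℝ)| := by rw [hm]; exact Nat.floor_le (by positivity)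
  have hm2 : s / |(r 1 : ℝ)| < m + 1 := by rw [hm]; exact Nat.lt_floor_add_one _
  have hinj : Function.Injective (fun i : ℕ => n + r 1 * (i : ℤ)) := by
    intro i j hij
    simp only at hij
    have h1 : r 1 * (i : ℤ) = r 1 * (j : ℤ) := by linarith
    have h2 := mul_left_cancel₀ hr h1
    exact_mod_cast h2
  have hsub : ((Finset.image (fun i : ℕ => n + r 1 * (i : ℤ)) (Finset.range (m + 1)) : Finset ℤ) : Set ℤ) ⊆
      {k : ℤ | Near r s n k} := by
    intro k hk
    rw [Finset.mem_coe, Finset.mem_image] at hk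
    obtain ⟨i, hi, rfl⟩ := hk
    rw [Finset.mem_range] at hi
    refine ⟨⟨(i : ℤ), by ring⟩, ?_⟩
    rw [add_sub_cancel_left]
    push_cast
    rw [abs_mul, Nat.abs_cast]
    have h1 : (i : ℝ) ≤ m := by exact_mod_cast (by omega : i ≤ m)
    have h2 : |(r 1 : ℝ)| * i ≤ |(r 1 : ℝ)| * (s / |(r 1 : ℝ)|) :=
      mul_le_mul_of_nonneg_left (h1.trans hm1) hrp.le
    have h3 : |(r 1 : ℝ)| * (s / |(r 1 : ℝ)|) = s := by field_simp
    linarith
  have hcard := Set.ncard_le_ncard hsub (near_finite54 s n)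
  rw [Set.ncard_coe_finset, Finset.card_image_of_injective _ hinj, Finset.card_range] at hcard
  have h4 : ((m + 1 : ℕ) : ℝ) ≤ ({k : ℤ | Near r s n k}.ncard : ℝ) := by exact_mod_cast hcard
  push_cast at h4
  have h5 : (0 : ℝ) ≤ m := Nat.cast_nonneg m
  constructor <;> linarith

private theorem ne_zero54 {r : ℤ → ℤ} (hr : Admissible 2 3 r) : r 1 ≠ 0 := by
  intro h
  have h8 := CO.odd_of_adm hr
  rw [h] at h8
  exact absurd h8 (by decide)

/-- The share of the neighbours which differ from `n`. -/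
private theorem diff54 {r : ℤ → ℤ} (hr0 : r 1 ≠ 0) {G : Set ℤ} {t ε : ℝ} (ht : 0 ≤ t) (hε : 0 < ε) {n : ℤ}
    (h : ε < share r {k | ¬ (k ∈ G ↔ n ∈ G)} t n) :
    ε / |(r 1 : ℝ)| * t < ({h : ℤ | r 1 ∣ h ∧ |(h : ℝ)| ≤ t ∧ ¬ (n + h ∈ G ↔ n ∈ G)}.ncard : ℝ) := by
  obtain ⟨c1, c2⟩ := near_card54 hr0 ht n
  have hM0 : (0 : ℝ) < ({k : ℤ | Near r t n k}.ncard : ℝ) := by linarith
  unfold share at h
  rw [lt_div_iff₀ hM0] at h
  have h2 : {k : ℤ | Near r t n k ∧ k ∈ {k | ¬ (k ∈ G ↔ n ∈ G)}} =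
      (fun h => n + h) '' {h : ℤ | r 1 ∣ h ∧ |(h : ℝ)| ≤ t ∧ ¬ (n + h ∈ G ↔ n ∈ G)} := by
    ext k
    constructor
    · rintro ⟨h3, h4⟩
      exact ⟨k - n, ⟨h3.1, h3.2, by rwa [add_sub_cancel]⟩, by simp⟩
    · rintro ⟨h, ⟨h3, h4, h5⟩, rfl⟩
      exact ⟨⟨by simpa using h3, by simpa using h4⟩, h5⟩
  rw [h2, Set.ncard_image_of_injective _ (add_right_injective n)] at h
  refine lt_of_le_of_lt ?_ h
  have h3 : ε / |(r 1 : ℝ)| * t = ε * (t / |(r 1 : ℝ)|) := by ring
  rw [h3]
  exact mul_le_mul_of_nonneg_left c1 hε.le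

/-- The shares of a set and of its complement. -/
private theorem share_compl54 {r : ℤ → ℤ} (hr0 : r 1 ≠ 0) (G : Set ℤ) {t : ℝ} (ht : 0 ≤ t) (n : ℤ) :
    share r Gᶜ t n = 1 - share r G t n := by
  obtain ⟨c1, c2⟩ := near_card54 hr0 ht n
  have hM0 : (0 : ℝ) < ({k : ℤ | Near r t n k}.ncard : ℝ) := by linarith
  have hf := near_finite54 (r := r) t n
  have h1 : ({k : ℤ | Near r t n k ∧ k ∈ G} ∪ {k : ℤ | Near r t n k ∧ k ∈ Gᶜ}) = {k : ℤ | Near r t n k} := by
    ext k
    constructor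
    · rintro (h | h) <;> exact h.1
    · intro h
      by_cases h3 : k ∈ G
      · exact Or.inl ⟨h, h3⟩
      · exact Or.inr ⟨h, h3⟩
  have h2 : Disjoint {k : ℤ | Near r t n k ∧ k ∈ G} {k : ℤ | Near r t n k ∧ k ∈ Gᶜ} := by
    rw [Set.disjoint_left]
    rintro k ⟨-, h3⟩ ⟨-, h4⟩
    exact h4 h3
  have h3 := Set.ncard_union_eq h2 (hf.subset fun k hk => hk.1) (hf.subset fun k hk => hk.1)
  rw [h1] at h3
  unfold share
  rw [eq_sub_iff_add_eq, ← add_div, div_eq_one_iff_eq hM0.ne', h3]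
  push_cast
  ring

/-- A pure point. -/
private theorem pure54 {r : ℤ → ℤ} (hr0 : r 1 ≠ 0) {G : Set ℤ} {t ε : ℝ} (ht : 0 ≤ t) {n : ℤ}
    (h : share r {k | ¬ (k ∈ G ↔ n ∈ G)} t n ≤ ε) :
    (n ∈ G → 1 - ε ≤ share r G t n) ∧ (n ∉ G → share r G t n ≤ ε) := by
  constructor
  · intro hn
    have e : {k : ℤ | ¬ (k ∈ G ↔ n ∈ G)} = Gᶜ := by
      ext k
      simp [hn]
    rw [e, share_compl54 hr0 G ht] at h
    linarith
  · intro hn
    have e : {k : ℤ | ¬ (k ∈ G ↔ n ∈ G)} = G := by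
      ext k
      simp [hn]
    rwa [e] at h

/-- The exceptional points of an invariant set, at all scales. -/
private theorem scales54 (m4 : GA.StmtM4) {r : ℤ → ℤ} (hr : Admissible 2 3 r) : ∃ C : ℝ, 0 < C ∧ ∀ G : Set ℤ, Inv r G →
    ∀ᶠ x : ℝ in atTop, ∀ s ε : ℝ, 1 ≤ s → 0 < ε → ε ≤ 1 →
      count {n | ∃ t : ℝ, 1 ≤ t ∧ t ≤ s ∧ ε < share r {k | ¬ (k ∈ G ↔ n ∈ G)} t n} x ≤
        C / ε * Real.sqrt ((1 + Real.log s) / Real.log x) * x := by
  have hr0 := ne_zero54 hr
  have hr1 : (1 : ℝ) ≤ |(r 1 : ℝ)| := by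
    have h8 : (1 : ℤ) ≤ |r 1| := Int.one_le_abs hr0
    exact_mod_cast h8
  obtain ⟨C, hC, h⟩ := m4 (r 1) (CO.odd_of_adm hr)
  refine ⟨C * |(r 1 : ℝ)|, by positivity, fun G hG => ?_⟩
  obtain ⟨z, hz⟩ := hG
  filter_upwards [h G z (fun n hn => by
    have := hz n hn
    rwa [CO.T_eq (r := r)] at this)] with x hx s ε hs hε hε1
  have h1 := hx s (ε / |(r 1 : ℝ)|) hs (by positivity) (by
    rw [div_le_iff₀ (by linarith)]
    linarith)
  have e : C / (ε / |(r 1 : ℝ)|) = C * |(r 1 : ℝ)| / ε := by field_simp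
  rw [e] at h1
  refine le_trans ?_ h1
  rw [count_eq54]
  refine POSB.cN_mono (fun n hn _ => ?_) x
  obtain ⟨t, h2, h3, h4⟩ := hn
  exact ⟨t, h2, h3, diff54 hr0 (by linarith) hε h4⟩

/-- The exceptional points of an invariant set, with one neighbour. -/
private theorem one54 (m5 : GA.StmtM5) {r : ℤ → ℤ} (hr : Admissible 2 3 r) : ∃ C : ℝ, 0 < C ∧ ∀ G : Set ℤ, Inv r G →
    ∀ᶠ x : ℝ in atTop, ∀ s : ℝ, 1 ≤ s →
      count {n | ∃ k, Near r s n k ∧ ¬ (k ∈ G ↔ n ∈ G)} x ≤ C * ((1 + Real.log s) / Real.sqrt (Real.log x)) * x := by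
  obtain ⟨C, hC, h⟩ := m5 (r 1) (CO.odd_of_adm hr)
  refine ⟨C, hC, fun G hG => ?_⟩
  obtain ⟨z, hz⟩ := hG
  filter_upwards [h G z (fun n hn => by
    have := hz n hn
    rwa [CO.T_eq (r := r)] at this)] with x hx s hs
  refine le_trans ?_ (hx s hs)
  rw [count_eq54]
  refine POSB.cN_mono (fun n hn _ => ?_) x
  obtain ⟨k, h2, h3⟩ := hn
  exact ⟨k - n, h2.1, h2.2, by rwa [add_sub_cancel]⟩

/-- Almost all the integers. -/
private theorem univ54 {A : ℝ → Set ℤ} (N : ℝ) (hA : ∀ᶠ x : ℝ in atTop, ∀ n : ℤ, N < n → n ∈ A x) {η : ℝ} (hη : 0 < η) :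
    ∀ᶠ x : ℝ in atTop, (1 - η) * x ≤ count (A x) x := by
  have h1 := POSB.cN_univ_tendsto (G := Set.univ) fun n _ => Set.mem_univ n
  have h2 := h1.eventually (lt_mem_nhds (by linarith : 1 - η / 2 < 1))
  filter_upwards [hA, h2, eventually_gt_atTop 0, eventually_ge_atTop (2 * |N| / η)] with x hAx hx hx0 hx1
  rw [lt_div_iff₀ hx0] at hx
  rw [div_le_iff₀ hη] at hx1
  have h3 : cN Set.univ x ≤ cN (A x) x + cN {n : ℤ | (n : ℝ) ≤ |N|} x := by
    refine le_trans (POSB.cN_mono (fun n hn _ => ?_) x) (POSB.cN_union_le _ _ x)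
    by_cases h3 : (n : ℝ) ≤ |N|
    · exact Or.inr h3
    · exact Or.inl (hAx n (lt_of_le_of_lt (le_abs_self N) (not_le.1 h3)))
  have h4 := GA.cN_low54 (y := |N|) (x := x) (abs_nonneg N)
  rw [count_eq54]
  linarith

/-- The count of a union. -/
private theorem count_split54 {A B C : Set ℤ} (h : ∀ n : ℤ, n ∈ A → n ∈ B ∨ n ∈ C) (x : ℝ) :
    count A x ≤ count B x + count C x :=
  le_trans (POSB.cN_mono (fun n hn _ => h n hn) x) (POSB.cN_union_le _ _ x)

/-- The root of the window. -/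
private theorem sqrt54 {η x : ℝ} (hη : 0 < η) (hx1 : 1 < x) (hx : 1 / η ≤ Real.log x) :
    Real.sqrt ((1 + Real.log (x ^ η)) / Real.log x) ≤ Real.sqrt (2 * η) := by
  have hx0 : 0 < x := by linarith
  have hL : 0 < Real.log x := Real.log_pos hx1
  apply Real.sqrt_le_sqrt
  rw [Real.log_rpow hx0, div_le_iff₀ hL]
  rw [div_le_iff₀ hη] at hx
  linarith

/-- The shares in the long windows. -/
private theorem long54 (s2 : GA.StmtS2) {r : ℤ → ℤ} (hr1 : r 1 = 1 ∨ r 1 = -1) {θ ε : ℝ} (hθ0 : 0 < θ) (hθ1 : θ < 1)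
    (hε : 0 < ε) (hε1 : ε ≤ 1) : ∃ c : ℝ, 0 < c ∧ ∀ G : Set ℤ, Inv r G → ∀ D : ℝ, 0 < D → HasDensity G D →
    ∀ᶠ x : ℝ in atTop, c * D * x ≤ count {n | ∀ t : ℝ, 1 ≤ t → t ≤ x ^ θ → 1 - ε ≤ share r G t n} x := by
  have hr0 : r 1 ≠ 0 := by rcases hr1 with h | h <;> rw [h] <;> decide
  have habs : |(r 1 : ℝ)| = 1 := by rcases hr1 with h | h <;> rw [h] <;> norm_num
  obtain ⟨c, hc, h⟩ := s2 (r 1) hr1 θ ε hθ0 hθ1 hε hε1
  refine ⟨c, hc, fun G hG D hD hGD => ?_⟩
  obtain ⟨z, hz⟩ := hG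
  filter_upwards [h G z (fun n hn => by
    have := hz n hn
    rwa [CO.T_eq (r := r)] at this) D hD hGD] with x hx
  refine hx.trans ?_
  rw [count_eq54]
  refine POSB.cN_mono (fun n hn _ => ?_) x
  intro t ht1 ht2
  have h1 := hn t ht1 ht2
  have h2 := share_compl54 hr0 G (by linarith : 0 ≤ t) n
  have h3 : share r Gᶜ t n ≤ ε := by
    obtain ⟨c1, c2⟩ := near_card54 hr0 (by linarith : 0 ≤ t) n
    rw [habs, div_one] at c1
    have hM0 : (0 : ℝ) < ({k : ℤ | Near r t n k}.ncard : ℝ) := by linarith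
    unfold share
    rw [div_le_iff₀ hM0]
    have h4 : {k : ℤ | Near r t n k ∧ k ∈ Gᶜ} ⊆ (fun h => n + h) '' {h : ℤ | |(h : ℝ)| ≤ t ∧ n + h ∉ G} := by
      rintro k ⟨h5, h6⟩
      exact ⟨k - n, ⟨h5.2, by rwa [add_sub_cancel]⟩, by simp⟩
    have hfin : {h : ℤ | |(h : ℝ)| ≤ t ∧ n + h ∉ G}.Finite := by
      refine (GA.finite54 (ρ := 1) t (fun h => n + h ∉ G)).subset ?_
      rintro h ⟨h5, h6⟩
      exact ⟨one_dvd _, h5, h6⟩
    have h5 := Set.ncard_le_ncard h4 (hfin.image _)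
    rw [Set.ncard_image_of_injective _ (add_right_injective n)] at h5
    have h6 : ({k : ℤ | Near r t n k ∧ k ∈ Gᶜ}.ncard : ℝ) ≤ ({h : ℤ | |(h : ℝ)| ≤ t ∧ n + h ∉ G}.ncard : ℝ) := by
      exact_mod_cast h5
    have h7 : ε * t ≤ ε * ({k : ℤ | Near r t n k}.ncard : ℝ) := mul_le_mul_of_nonneg_left c1 hε.le
    linarith
  linarith

/-- A large set meets a set which misses few integers. -/
private theorem meet54 {A Y : Set ℤ} {x η : ℝ} (hx : 0 < x) (hY : (1 - η) * x ≤ count Y x) (hA : η * x < count A x) :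
    ∃ n ∈ A, n ∈ Y := by
  by_contra hcon
  push Not at hcon
  have h1 : count A x ≤ count Yᶜ x := by
    rw [count_eq54, count_eq54]
    exact POSB.cN_mono (fun n hn _ => hcon n hn) x
  have h7 : count Y x + count Yᶜ x = count (Y ∪ Yᶜ) x := by
    rw [count_eq54, count_eq54, count_eq54, POSB.cN_union disjoint_compl_right]
  have h8 : count (Y ∪ Yᶜ) x ≤ x := cN_le _ hx.le
  linarith

/-- The set of the integers which reach `1`. -/
private theorem inv_three54 : Inv (fun _ => -1) {n : ℤ | ∃ t : ℕ, (T 2 3 (fun _ => -1))^[t] n = 1} := by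
  refine ⟨1, fun n hn => ⟨?_, ?_⟩⟩
  · rintro ⟨t, ht⟩
    cases t with
    | zero =>
      rw [Function.iterate_zero, id_eq] at ht
      omega
    | succ t => exact ⟨t, by rwa [Function.iterate_succ_apply] at ht⟩
  · rintro ⟨t, ht⟩
    exact ⟨t + 1, by rwa [Function.iterate_succ_apply]⟩

/-- **Neighbouring orbits.** -/
theorem result :
    (∀ r : ℤ → ℤ, Admissible 2 3 r →
      -- the exact order of the number of the windows which do not meet after `k` steps
      (∃ (c C : ℝ) (k₀ : ℕ), 0 < c ∧ ∀ (k : ℕ) (x s : ℝ), k₀ ≤ k → (4 : ℝ) ^ k ≤ x → |(r 1 : ℝ)| ≤ s →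
        c * min 1 ((1 + Real.log s) / Real.sqrt k) * x ≤
          count {n | ∃ n', Near r s n n' ∧ (T 2 3 r)^[k] n' ≠ (T 2 3 r)^[k] n} x ∧
        count {n | ∃ n', Near r s n n' ∧ ((T 2 3 r)^[k] n' ≠ (T 2 3 r)^[k] n ∨ odds r k n' ≠ odds r k n)} x ≤
          C * min 1 ((1 + Real.log s) / Real.sqrt k) * x) ∧
      -- invariant sets are pure around almost all points
      (∃ C : ℝ, ∀ G : Set ℤ, Inv r G → (∃ D : ℝ, HasDensity G D) ∧ ∀ᶠ x : ℝ in atTop, ∀ s : ℝ, 1 ≤ s →
        count {n | ∃ k, Near r s n k ∧ ¬ (k ∈ G ↔ n ∈ G)} x ≤ C * ((1 + Real.log s) / Real.sqrt (Real.log x)) * x ∧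
        ∀ ε : ℝ, 0 < ε → ε ≤ 1 →
          count {n | ∃ t : ℝ, 1 ≤ t ∧ t ≤ s ∧ ε < share r {k | ¬ (k ∈ G ↔ n ∈ G)} t n} x ≤
            C / ε * Real.sqrt ((1 + Real.log s) / Real.log x) * x) ∧
      -- the exceptional set: one bounded orbit in the windows of the size `exp (η √(log x))`
      ((E 2 3 r).Finite ↔ ∃ B : ℝ, ∀ η : ℝ, 0 < η → ∃ᶠ x : ℝ in atTop,
        (1 - η) * x ≤ count {n | ∃ k, Near r (Real.exp (η * Real.sqrt (Real.log x))) n k ∧ k ∈ Below r B} x) ∧
      -- a positive share of bounded orbits in some window of the size at most `x ^ η`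
      ((E 2 3 r).Finite ↔ ∃ B ε : ℝ, 0 < ε ∧ ∀ η : ℝ, 0 < η → ∃ᶠ x : ℝ in atTop,
        (1 - η) * x ≤ count {n | ∃ s : ℝ, 1 ≤ s ∧ s ≤ x ^ η ∧ ε ≤ share r (Below r B) s n} x) ∧
      -- the maps `3x - 1` and `3x + 1`: some window of the size at most `x ^ θ`, `θ < 1` fixed
      (r 1 = 1 ∨ r 1 = -1 → ∀ θ : ℝ, 0 < θ → θ < 1 →
        ((E 2 3 r).Finite ↔ ∃ B ε : ℝ, 0 < ε ∧ ∀ η : ℝ, 0 < η → ∃ᶠ x : ℝ in atTop,
          (1 - η) * x ≤ count {n | ∃ s : ℝ, 1 ≤ s ∧ s ≤ x ^ θ ∧ ε ≤ share r (Below r B) s n} x))) ∧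
    -- the map `3x + 1`: the concentration of the share
    (∀ θ : ℝ, 0 < θ → θ < 1 →
      ((∀ n : ℤ, 0 < n → ∃ t : ℕ, T3^[t] n = 1) ↔ ∀ η : ℝ, 0 < η → ∃ᶠ x : ℝ in atTop, ∃ p : ℝ,
        (1 - η) * x ≤ count {n | ∃ s : ℝ, 1 ≤ s ∧ s ≤ x ^ θ ∧
          |share (fun _ => -1) {k | ∃ t : ℕ, T3^[t] k = 1} s n - p| ≤ 1 / 4} x)) := by
  have h1 : GA.StmtG1 := Pool.Agent.Helper58.GA.g1
  have h3 : GA.StmtG3 := GA.g3 Pool.Agent.Helper34.GA.G2 Pool.Agent.Helper34.GA.G3a Pool.Agent.Helper77.GA.g3b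
  have m4 : GA.StmtM4 := GA.m4 Pool.Agent.Helper9.GA.m2 (Pool.Agent.Helper34.GA.m3 Pool.Agent.Helper77.GA.m1)
  have m5 : GA.StmtM5 := GA.m5 h1
  have s2 : GA.StmtS2 := Pool.Agent.Helper58.GA.s2 GA.s1
  refine ⟨fun r hr => ?_, ?_⟩
  · have hr0 := ne_zero54 hr
    have hρ : Odd (r 1) := CO.odd_of_adm hr
    have hstd : POSB.Std 2 3 r := ⟨le_refl 2, by norm_num, by norm_num, POS.three_hyp.1, hr⟩
    obtain ⟨β, hβ, hE⟩ := POSB.above hstd
    have hβ0 : ∀ B : ℝ, 0 ≤ β B := by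
      intro B
      refine ge_of_tendsto (hβ B) ?_
      filter_upwards [eventually_gt_atTop 0] with x hx
      exact div_nonneg (cN_nonneg _ x) hx.le
    have hcompl : ∀ B : ℝ, Below r B = (POSB.Above 2 3 r B)ᶜ := by
      intro B
      ext n
      simp only [Below, POSB.Above, Set.mem_ofPred_eq, Set.mem_compl_iff, not_forall, not_lt]
    have hinv : ∀ B : ℝ, Inv r (Below r B) := by
      intro B
      rw [hcompl]
      refine ⟨⌈B⌉, fun n hn => not_congr (POSB.tinv_Above B n ?_)⟩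
      have h7 : (⌈B⌉ : ℝ) < n := by exact_mod_cast hn
      exact lt_of_le_of_lt (Int.le_ceil B) h7
    have hden : ∀ B : ℝ, HasDensity (Below r B) (1 - β B) := by
      intro B
      rw [hcompl]
      exact compl54 (hβ B)
    have hall : (E 2 3 r).Finite → ∃ B : ℝ, ∀ n : ℤ, n ∈ Below r B := by
      intro hfin
      obtain ⟨B, hB⟩ := PRE.stay_empty (le_refl 2) hr hfin
      refine ⟨B, fun n => ?_⟩
      have h8 := hB n
      push Not at h8
      obtain ⟨t, -, ht⟩ := h8 0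
      exact ⟨t, ht⟩
    have hself : ∀ (s : ℝ) (n : ℤ), 0 ≤ s → Near r s n n := by
      intro s n hs
      refine ⟨by rw [sub_self]; exact dvd_zero _, ?_⟩
      rw [sub_self, Int.cast_zero, abs_zero]
      exact hs
    have hone_share : ∀ (B : ℝ), (∀ n : ℤ, n ∈ Below r B) → ∀ n : ℤ, (1 : ℝ) ≤ share r (Below r B) 1 n := by
      intro B hB n
      obtain ⟨c1, c2⟩ := near_card54 hr0 zero_le_one n
      unfold share
      rw [le_div_iff₀ (by linarith), one_mul]
      refine Nat.cast_le.2 (Set.ncard_le_ncard (fun k hk => ⟨hk, hB k⟩) ((near_finite54 (r := r) 1 n).subset fun k hk => hk.1))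
    refine ⟨?_, ?_, ⟨?_, ?_⟩, ⟨?_, ?_⟩, fun hr1 θ hθ0 hθ1 => ⟨?_, ?_⟩⟩
    · -- the exact order
      obtain ⟨C, hC, hup⟩ := h1 (r 1) hρ
      obtain ⟨c, k₀, hc, hlow⟩ := h3 (r 1) hρ
      have hr1 : (1 : ℝ) ≤ |(r 1 : ℝ)| := by
        have h8 : (1 : ℤ) ≤ |r 1| := Int.one_le_abs hr0
        exact_mod_cast h8
      refine ⟨c, C, max k₀ 1, hc, fun k x w hk hx hw => ?_⟩
      have hk0 : k₀ ≤ k := (le_max_left _ _).trans hk
      have hk1 : 1 ≤ k := (le_max_right _ _).trans hk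
      have h2x : (2 : ℝ) ^ k ≤ x := by
        have h7 : (2 : ℝ) ^ k ≤ 4 ^ k := pow_le_pow_left₀ (by norm_num) (by norm_num) k
        exact h7.trans hx
      constructor
      · refine (hlow k x w hk0 hx hw).trans ?_
        rw [count_eq54]
        refine POSB.cN_mono (fun n hn _ => ?_) x
        obtain ⟨h, h7, h8, h9⟩ := hn
        refine ⟨n + h, ⟨by rwa [add_sub_cancel_left], by rwa [add_sub_cancel_left]⟩, ?_⟩
        rwa [CO.T_eq (r := r)]
      · refine le_trans ?_ (hup k x w hk1 h2x (hr1.trans hw))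
        rw [count_eq54]
        refine POSB.cN_mono (fun n hn _ => ?_) x
        obtain ⟨n', h7, h8⟩ := hn
        refine ⟨n' - n, h7.1, h7.2, ?_⟩
        rw [add_sub_cancel]
        rintro ⟨h9, h10⟩
        rw [add_zero] at h10
        rcases h8 with h8 | h8
        · apply h8
          rw [CO.T_eq (r := r)]
          exact h9.symm
        · apply h8
          rw [odds_eq54, odds_eq54]
          have e : ∀ a : ℤ, cnt 2 3 r k a = cnt 2 3 (fun _ => r 1) k a := by
            intro a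
            rw [← odds_eq54, ← odds_eq54]
            unfold odds
            rw [CO.T_eq (r := r)]
          rw [e, e]
          exact h10.symm
    · -- invariant sets
      obtain ⟨C, hC, hsc⟩ := scales54 m4 hr
      obtain ⟨C', hC', hone⟩ := one54 m5 hr
      refine ⟨max C C', fun G hG => ⟨?_, ?_⟩⟩
      · obtain ⟨z, hz⟩ := hG
        have hT : TInv 2 3 r G (z : ℝ) := fun n hn => hz n (by exact_mod_cast hn)
        exact ⟨PL.dens G, POSB.tendsto_dens hstd hT⟩
      · filter_upwards [hsc G hG, hone G hG, eventually_gt_atTop (1 : ℝ)] with x a1 a2 hx1 s hs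
        have hx0 : 0 < x := by linarith
        have hL : 0 < Real.log x := Real.log_pos hx1
        have hs0 : 0 ≤ Real.log s := Real.log_nonneg hs
        refine ⟨(a2 s hs).trans ?_, fun ε hε hε1 => (a1 s ε hs hε hε1).trans ?_⟩
        · apply mul_le_mul_of_nonneg_right _ hx0.le
          exact mul_le_mul_of_nonneg_right (le_max_right _ _) (by positivity)
        · apply mul_le_mul_of_nonneg_right _ hx0.le
          apply mul_le_mul_of_nonneg_right _ (Real.sqrt_nonneg _)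
          exact div_le_div_of_nonneg_right (le_max_left _ _) hε.le
    · intro hfin
      obtain ⟨B, hB⟩ := hall hfin
      refine ⟨B, fun η hη => ?_⟩
      have h7 := univ54 (A := fun x => {n | ∃ k, Near r (Real.exp (η * Real.sqrt (Real.log x))) n k ∧ k ∈ Below r B}) 0
        (Eventually.of_forall fun x n _ => ⟨n, hself _ n (Real.exp_pos _).le, hB n⟩) hη
      exact h7.frequently
    · rintro ⟨B, hB⟩
      rw [hE]
      refine ⟨B, ?_⟩
      by_contra hβB
      have hβ1 : 0 < β B := lt_of_le_of_ne (hβ0 B) (Ne.symm hβB)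
      obtain ⟨C, hC, hone⟩ := one54 m5 hr
      obtain ⟨η, hη⟩ : ∃ η : ℝ, η = β B / (4 * (2 * C + 1)) := ⟨_, rfl⟩
      have hη0 : 0 < η := by rw [hη]; positivity
      have hηβ : (2 * C + 1) * η = β B / 4 := by rw [hη]; field_simp
      have e1 := (hden B).eventually (gt_mem_nhds (by linarith : 1 - β B < 1 - β B / 2))
      have e3 : ∀ᶠ x : ℝ in atTop, 1 / η ≤ Real.sqrt (Real.log x) :=
        (Real.tendsto_sqrt_atTop.comp Real.tendsto_log_atTop).eventually_ge_atTop _
      obtain ⟨x, b0, b1, b2, b3, b4⟩ := ((hB η hη0).and_eventually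
        (e1.and ((hone _ (hinv B)).and (e3.and (eventually_gt_atTop (1 : ℝ)))))).exists
      have hx0 : 0 < x := by linarith
      rw [div_lt_iff₀ hx0] at b1
      have hsL : 0 < Real.sqrt (Real.log x) := Real.sqrt_pos.2 (Real.log_pos b4)
      have b5 := b2 (Real.exp (η * Real.sqrt (Real.log x))) (Real.one_le_exp (by positivity))
      rw [Real.log_exp] at b5
      have b6 : (1 + η * Real.sqrt (Real.log x)) / Real.sqrt (Real.log x) ≤ 2 * η := by
        rw [div_le_iff₀ hsL]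
        rw [div_le_iff₀ hη0] at b3
        linarith
      have b7 : C * ((1 + η * Real.sqrt (Real.log x)) / Real.sqrt (Real.log x)) * x ≤ 2 * C * η * x := by
        apply mul_le_mul_of_nonneg_right _ hx0.le
        calc C * ((1 + η * Real.sqrt (Real.log x)) / Real.sqrt (Real.log x)) ≤ C * (2 * η) :=
              mul_le_mul_of_nonneg_left b6 hC.le
          _ = 2 * C * η := by ring
      have b8 := count_split54 (A := {n | ∃ k, Near r (Real.exp (η * Real.sqrt (Real.log x))) n k ∧ k ∈ Below r B})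
        (B := Below r B) (C := {n | ∃ k, Near r (Real.exp (η * Real.sqrt (Real.log x))) n k ∧
          ¬ (k ∈ Below r B ↔ n ∈ Below r B)}) (by
        rintro n ⟨k, c1, c2⟩
        by_cases c3 : n ∈ Below r B
        · exact Or.inl c3
        · exact Or.inr ⟨k, c1, fun c4 => c3 (c4.1 c2)⟩) x
      have b9 : (2 * C + 1) * η * x = β B / 4 * x := by rw [hηβ]
      nlinarith
    · intro hfin
      obtain ⟨B, hB⟩ := hall hfin
      refine ⟨B, 1, one_pos, fun η hη => ?_⟩
      have h8 := hone_share B hB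
      have h7 := univ54 (A := fun x => {n | ∃ s : ℝ, 1 ≤ s ∧ s ≤ x ^ η ∧ 1 ≤ share r (Below r B) s n}) 0 (by
        filter_upwards [eventually_ge_atTop (1 : ℝ)] with x hx n _
        exact ⟨1, le_refl 1, Real.one_le_rpow hx hη.le, h8 n⟩) hη
      exact h7.frequently
    · rintro ⟨B, ε, hε, hfr⟩
      rw [hE]
      refine ⟨B, ?_⟩
      by_contra hβB
      have hβ1 : 0 < β B := lt_of_le_of_ne (hβ0 B) (Ne.symm hβB)
      obtain ⟨C, hC, hsc⟩ := scales54 m4 hr
      obtain ⟨ε₀, hε₀⟩ : ∃ ε₀ : ℝ, ε₀ = min (ε / 2) 1 := ⟨_, rfl⟩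
      have a1 : 0 < ε₀ := by rw [hε₀]; exact lt_min (by linarith) one_pos
      have a2 : ε₀ ≤ 1 := by rw [hε₀]; exact min_le_right _ _
      have a3 : ε₀ < ε := by rw [hε₀]; exact lt_of_le_of_lt (min_le_left _ _) (by linarith)
      obtain ⟨q, hq⟩ : ∃ q : ℝ, q = min (β B * ε₀ / (8 * C)) 1 := ⟨_, rfl⟩
      have hq0 : 0 < q := by rw [hq]; exact lt_min (by positivity) one_pos
      have hq1 : q ≤ 1 := by rw [hq]; exact min_le_right _ _
      have hq2 : q ≤ β B * ε₀ / (8 * C) := by rw [hq]; exact min_le_left _ _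
      obtain ⟨η, hη⟩ : ∃ η : ℝ, η = min (q ^ 2 / 2) (β B / 8) := ⟨_, rfl⟩
      have hη0 : 0 < η := by rw [hη]; exact lt_min (by positivity) (by linarith)
      have hη1 : η ≤ q ^ 2 / 2 := by rw [hη]; exact min_le_left _ _
      have hη2 : η ≤ β B / 8 := by rw [hη]; exact min_le_right _ _
      have hs : Real.sqrt (2 * η) ≤ q := by
        rw [Real.sqrt_le_left hq0.le]
        linarith
      have e1 := (hden B).eventually (gt_mem_nhds (by linarith : 1 - β B < 1 - β B / 2))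
      have e3 : ∀ᶠ x : ℝ in atTop, 1 / η ≤ Real.log x := Real.tendsto_log_atTop.eventually_ge_atTop _
      obtain ⟨x, b0, b1, b2, b3, b4⟩ := ((hfr η hη0).and_eventually
        (e1.and ((hsc _ (hinv B)).and (e3.and (eventually_gt_atTop (1 : ℝ)))))).exists
      have hx0 : 0 < x := by linarith
      rw [div_lt_iff₀ hx0] at b1
      have b5 := b2 (x ^ η) ε₀ (Real.one_le_rpow b4.le hη0.le) a1 a2
      have b6 : C / ε₀ * Real.sqrt ((1 + Real.log (x ^ η)) / Real.log x) * x ≤ β B / 8 * x := by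
        apply mul_le_mul_of_nonneg_right _ hx0.le
        calc C / ε₀ * Real.sqrt ((1 + Real.log (x ^ η)) / Real.log x) ≤ C / ε₀ * (β B * ε₀ / (8 * C)) :=
              mul_le_mul_of_nonneg_left ((sqrt54 hη0 b4 b3).trans (hs.trans hq2)) (by positivity)
          _ = β B / 8 := by field_simp
      have b8 := count_split54 (A := {n | ∃ s : ℝ, 1 ≤ s ∧ s ≤ x ^ η ∧ ε ≤ share r (Below r B) s n})
        (B := Below r B) (C := {n | ∃ t : ℝ, 1 ≤ t ∧ t ≤ x ^ η ∧
          ε₀ < share r {k | ¬ (k ∈ Below r B ↔ n ∈ Below r B)} t n}) (by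
        rintro n ⟨s, c1, c2, c3⟩
        by_cases c4 : n ∈ Below r B
        · exact Or.inl c4
        · refine Or.inr ⟨s, c1, c2, ?_⟩
          by_contra c5
          rw [not_lt] at c5
          have c6 := (pure54 hr0 (by linarith) c5).2 c4
          linarith) x
      have b9 : η * x ≤ β B / 8 * x := mul_le_mul_of_nonneg_right hη2 hx0.le
      nlinarith
    · -- long windows
      intro hfin
      obtain ⟨B, hB⟩ := hall hfin
      refine ⟨B, 1, one_pos, fun η hη => ?_⟩
      have h8 := hone_share B hB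
      have h7 := univ54 (A := fun x => {n | ∃ s : ℝ, 1 ≤ s ∧ s ≤ x ^ θ ∧ 1 ≤ share r (Below r B) s n}) 0 (by
        filter_upwards [eventually_ge_atTop (1 : ℝ)] with x hx n _
        exact ⟨1, le_refl 1, Real.one_le_rpow hx hθ0.le, h8 n⟩) hη
      exact h7.frequently
    · rintro ⟨B, ε, hε, hfr⟩
      rw [hE]
      refine ⟨B, ?_⟩
      by_contra hβB
      have hβ1 : 0 < β B := lt_of_le_of_ne (hβ0 B) (Ne.symm hβB)
      obtain ⟨ε₀, hε₀⟩ : ∃ ε₀ : ℝ, ε₀ = min (ε / 2) 1 := ⟨_, rfl⟩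
      have a1 : 0 < ε₀ := by rw [hε₀]; exact lt_min (by linarith) one_pos
      have a2 : ε₀ ≤ 1 := by rw [hε₀]; exact min_le_right _ _
      have a3 : ε₀ < ε := by rw [hε₀]; exact lt_of_le_of_lt (min_le_left _ _) (by linarith)
      obtain ⟨c, hc, hlong⟩ := long54 s2 hr1 hθ0 hθ1 a1 a2
      have hinvc : Inv r (Below r B)ᶜ := by
        obtain ⟨z, hz⟩ := hinv B
        exact ⟨z, fun n hn => not_congr (hz n hn)⟩
      have hdenc : HasDensity (Below r B)ᶜ (β B) := by
        have := compl54 (hden B)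
        rwa [sub_sub_cancel] at this
      obtain ⟨x, b0, b1, b2⟩ := ((hfr (c * β B / 2) (by positivity)).and_eventually
        ((hlong _ hinvc _ hβ1 hdenc).and (eventually_gt_atTop (0 : ℝ)))).exists
      obtain ⟨n, d1, d2⟩ := meet54 b2 b0 (lt_of_lt_of_le (by
        have : 0 < c * β B * x := by positivity
        linarith) b1)
      obtain ⟨s, g1, g2, g3⟩ := d2
      have g4 := d1 s g1 g2
      rw [share_compl54 hr0 _ (by linarith)] at g4
      linarith
  · -- the map `3x + 1`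
    intro θ hθ0 hθ1
    have hadm : Admissible 2 3 (fun _ => -1) := POS.three_hyp.2
    have hr0 : ((fun _ => -1 : ℤ → ℤ) 1) ≠ 0 := ne_zero54 (r := fun _ => -1) hadm
    obtain ⟨G, hG⟩ : ∃ G : Set ℤ, G = {k : ℤ | ∃ t : ℕ, T3^[t] k = 1} := ⟨_, rfl⟩
    have hGinv : Inv (fun _ => -1) G := by rw [hG]; exact inv_three54
    obtain ⟨D, hD0, hD, hD1⟩ := POSB.three
    have hDG : HasDensity G D := by rw [hG]; exact hD
    rw [← hG]
    constructor
    · intro hall η hη
      have h8 : ∀ n : ℤ, (1 : ℝ) < n → share (fun _ => -1) G 1 n = 1 := by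
        intro n hn
        have hn' : (1 : ℤ) < n := by exact_mod_cast hn
        obtain ⟨c1, c2⟩ := near_card54 (r := fun _ => -1) hr0 zero_le_one n
        have e : {k : ℤ | Near (fun _ => -1) 1 n k ∧ k ∈ G} = {k : ℤ | Near (fun _ => -1) 1 n k} := by
          ext k
          constructor
          · exact fun h => h.1
          · intro h
            refine ⟨h, ?_⟩
            have h1 := (abs_le.1 h.2).1
            have h2 : (-1 : ℤ) ≤ k - n := by exact_mod_cast h1
            rw [hG]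
            exact hall k (by linarith)
        unfold share
        rw [e, div_self (by linarith)]
      have h7 := univ54 (A := fun x => {n | ∃ s : ℝ, 1 ≤ s ∧ s ≤ x ^ θ ∧ |share (fun _ => -1) G s n - 1| ≤ 1 / 4}) 1 (by
        filter_upwards [eventually_ge_atTop (1 : ℝ)] with x hx n hn
        refine ⟨1, le_refl 1, Real.one_le_rpow hx hθ0.le, ?_⟩
        rw [h8 n hn]
        norm_num) hη
      exact (h7.mono fun x hx => ⟨1, hx⟩).frequently
    · intro hfr
      apply hD1.1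
      by_contra hne
      have hDle : D ≤ 1 := by
        refine le_of_tendsto hD ?_
        filter_upwards [eventually_gt_atTop 0] with x hx
        rw [div_le_one hx]
        exact cN_le _ hx.le
      have hDlt : D < 1 := lt_of_le_of_ne hDle hne
      have hGinvc : Inv (fun _ => -1) Gᶜ := by
        obtain ⟨z, hz⟩ := hGinv
        exact ⟨z, fun n hn => not_congr (hz n hn)⟩
      obtain ⟨c, hc, hlong⟩ := long54 s2 (r := fun _ => -1) (Or.inr rfl) hθ0 hθ1 (by norm_num : (0 : ℝ) < 1 / 8) (by norm_num)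
      obtain ⟨μ, hμ⟩ : ∃ μ : ℝ, μ = c * min D (1 - D) := ⟨_, rfl⟩
      have hμ0 : 0 < μ := by
        rw [hμ]
        have : 0 < min D (1 - D) := lt_min hD0 (by linarith)
        positivity
      have hμ1 : μ ≤ c * D := by rw [hμ]; exact mul_le_mul_of_nonneg_left (min_le_left _ _) hc.le
      have hμ2 : μ ≤ c * (1 - D) := by rw [hμ]; exact mul_le_mul_of_nonneg_left (min_le_right _ _) hc.le
      obtain ⟨x, ⟨p, b0⟩, b1, b2, b3⟩ := ((hfr (μ / 2) (by positivity)).and_eventually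
        ((hlong _ hGinv _ hD0 hDG).and ((hlong _ hGinvc _ (by linarith) (compl54 hDG)).and (eventually_gt_atTop (0 : ℝ))))).exists
      have hμx : 0 < μ * x := by positivity
      obtain ⟨n, d1, d2⟩ := meet54 b3 b0 (lt_of_lt_of_le (by
        have : μ * x ≤ c * D * x := mul_le_mul_of_nonneg_right hμ1 b3.le
        linarith) b1)
      obtain ⟨n', f1, f2⟩ := meet54 b3 b0 (lt_of_lt_of_le (by
        have : μ * x ≤ c * (1 - D) * x := mul_le_mul_of_nonneg_right hμ2 b3.le
        linarith) b2)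
      obtain ⟨s, g1, g2, g3⟩ := d2
      obtain ⟨s', g1', g2', g3'⟩ := f2
      have i3 := d1 s g1 g2
      have i3' := f1 s' g1' g2'
      rw [share_compl54 (r := fun _ => -1) hr0 _ (by linarith)] at i3'
      have i4 := (abs_le.1 g3).2
      have i4' := (abs_le.1 g3').1
      linarith

end Pool.Agent.Results.MP_fd8838_nt.LocalCriterion
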